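import Pool.Agent.Lib_helper93.Nyman.Ideal

set_option autoImplicit false
open Set Filter Topology MeasureTheory
open scoped Interval

namespace Pool.Agent.Nyman

/-! ### the weight has radius one -/

lemma rho_le_const (i : ℕ) (t : ℝ) : rho i t ≤ sg i * T i := by
  have hT := T_pos i
  set n : ℤ := ⌊t / T i⌋ with hn
  have h1 : (n : ℝ) ≤ t / T i := Int.floor_le _
  have h2 : t / T i < n + 1 := Int.lt_floor_add_one _
  rw [le_div_iff₀ hT] at h1
  rw [div_lt_iff₀ hT] at h2
  refine (rho_le i t n).trans ?_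
  rw [pg_of_nonneg i (by linarith)]
  have := sg_pos i
  apply mul_le_mul_of_nonneg_left _ this.le
  nlinarith

lemma W_le_split (n : ℕ) {t : ℝ} (h : 0 ≤ t) :
    W t ≤ (∑ i ∈ Finset.range n, sg i * T i) + S n * t := by
  have hC : 0 ≤ ∑ i ∈ Finset.range n, sg i * T i :=
    Finset.sum_nonneg fun i _ => mul_nonneg (sg_pos i).le (T_pos i).le
  refine Real.tsum_le_of_sum_range_le (fun i => rho_nonneg i t) (fun m => ?_)
  have hsub : ∑ i ∈ Finset.range m, rho i t ≤
      ∑ i ∈ Finset.range (max m n), rho i t :=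
    Finset.sum_le_sum_of_subset_of_nonneg (Finset.range_mono (le_max_left _ _))
      fun i _ _ => rho_nonneg i t
  refine hsub.trans ?_
  rw [← Finset.sum_range_add_sum_Ico _ (le_max_right m n)]
  apply add_le_add
  · exact Finset.sum_le_sum fun i _ => rho_le_const i t
  · calc ∑ i ∈ Finset.Ico n (max m n), rho i t ≤ ∑ i ∈ Finset.Ico n (max m n), sg i * t :=
          Finset.sum_le_sum fun i _ => rho_le_lin i h
      _ = (S n - S (max m n)) * t := by
          rw [← Finset.sum_mul, Finset.sum_Ico_eq_sub _ (le_max_right m n), sum_sg, sum_sg]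
          ring
      _ ≤ S n * t := by
          have := S_pos (max m n)
          nlinarith

lemma W_div_tendsto : Tendsto (fun t : ℝ => W t / t) atTop (𝓝 0) := by
  rw [Metric.tendsto_atTop]
  intro ε hε
  have h1 : ∀ᶠ n in atTop, S n < ε / 2 := S_tendsto.eventually_lt_const (by linarith)
  obtain ⟨n, hn⟩ := h1.exists
  set C := ∑ i ∈ Finset.range n, sg i * T i with hC
  have hC0 : 0 ≤ C := Finset.sum_nonneg fun i _ => mul_nonneg (sg_pos i).le (T_pos i).le
  refine ⟨max 1 (2 * (C + 1) / ε), fun t ht => ?_⟩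
  have ht1 : 1 ≤ t := (le_max_left _ _).trans ht
  have ht2 : 2 * (C + 1) / ε ≤ t := (le_max_right _ _).trans ht
  have ht0 : 0 < t := by linarith
  rw [Real.dist_eq, sub_zero, abs_of_nonneg (div_nonneg (W_nonneg t) ht0.le), div_lt_iff₀ ht0]
  have h2 := W_le_split n ht0.le
  rw [div_le_iff₀ hε] at ht2
  nlinarith

lemma om_rpow_tendsto : Tendsto (fun t : ℝ => om t ^ (1 / t)) atTop (𝓝 1) := by
  have h : Tendsto (fun t : ℝ => Real.exp (W t / t)) atTop (𝓝 (Real.exp 0)) :=
    (Real.continuous_exp.tendsto 0).comp W_div_tendsto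
  rw [Real.exp_zero] at h
  refine h.congr fun t => ?_
  unfold om
  rw [← Real.exp_mul]
  congr 1
  ring

/-! ### a kernel with nonvanishing Laplace transform -/

/-- The convolution square of `(1 - t)₊`: it is `t - t² + t³/6` on `[0,1]` and `(2-t)³/6` on
`[1,2]`. -/
noncomputable def kkr (t : ℝ) : ℝ :=
  (min 1 (max 0 t) - min 1 (max 0 t) ^ 2 + min 1 (max 0 t) ^ 3 / 6) +
    (2 - min 2 (max 1 t)) ^ 3 / 6 - 1 / 6

noncomputable def kk (t : ℝ) : ℂ := ((kkr t : ℝ) : ℂ)

lemma kkr_neg {t : ℝ} (h : t ≤ 0) : kkr t = 0 := by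
  unfold kkr
  rw [max_eq_left h, max_eq_left (by linarith : t ≤ 1), min_eq_right (by norm_num : (0:ℝ) ≤ 1),
    min_eq_right (by norm_num : (1:ℝ) ≤ 2)]
  norm_num

lemma kkr_01 {t : ℝ} (h0 : 0 ≤ t) (h1 : t ≤ 1) : kkr t = t - t ^ 2 + t ^ 3 / 6 := by
  unfold kkr
  rw [max_eq_right h0, max_eq_left h1, min_eq_right h1,
    min_eq_right (by norm_num : (1:ℝ) ≤ 2)]
  norm_num

lemma kkr_12 {t : ℝ} (h1 : 1 ≤ t) (h2 : t ≤ 2) : kkr t = (2 - t) ^ 3 / 6 := by
  unfold kkr
  rw [max_eq_right (by linarith : (0:ℝ) ≤ t), max_eq_right h1, min_eq_left h1, min_eq_right h2]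
  norm_num

lemma kkr_2 {t : ℝ} (h2 : 2 ≤ t) : kkr t = 0 := by
  unfold kkr
  rw [max_eq_right (by linarith : (0:ℝ) ≤ t), max_eq_right (by linarith : (1:ℝ) ≤ t),
    min_eq_left (by linarith : (1:ℝ) ≤ t), min_eq_left h2]
  norm_num

lemma clamp_lip (a b s t : ℝ) : |min a (max b s) - min a (max b t)| ≤ |s - t| := by
  have h1 : |min a (max b s) - min a (max b t)| ≤ |max b s - max b t| := by
    have := abs_min_sub_min_le_max a (max b s) a (max b t)
    simpa using this
  refine h1.trans ?_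
  have := abs_max_sub_max_le_max b s b t
  simpa using this

lemma kkr_lip (s t : ℝ) : |kkr s - kkr t| ≤ 2 * |s - t| := by
  set a := min 1 (max 0 s) with ha
  set b := min 1 (max 0 t) with hb
  set c := min 2 (max 1 s) with hc
  set d := min 2 (max 1 t) with hd
  have ha0 : 0 ≤ a := le_min (by norm_num) (le_max_left _ _)
  have ha1 : a ≤ 1 := min_le_left _ _
  have hb0 : 0 ≤ b := le_min (by norm_num) (le_max_left _ _)
  have hb1 : b ≤ 1 := min_le_left _ _
  have hc0 : 1 ≤ c := le_min (by norm_num) (le_max_left _ _)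
  have hc1 : c ≤ 2 := min_le_left _ _
  have hd0 : 1 ≤ d := le_min (by norm_num) (le_max_left _ _)
  have hd1 : d ≤ 2 := min_le_left _ _
  have e : kkr s - kkr t = (a - b) * (1 - (a + b) + (a ^ 2 + a * b + b ^ 2) / 6) -
      (c - d) * (((2 - c) ^ 2 + (2 - c) * (2 - d) + (2 - d) ^ 2) / 6) := by
    unfold kkr
    rw [← ha, ← hb, ← hc, ← hd]
    ring
  rw [e]
  have h1 : |(a - b) * (1 - (a + b) + (a ^ 2 + a * b + b ^ 2) / 6)| ≤ |a - b| * 1 := by
    rw [abs_mul]
    apply mul_le_mul_of_nonneg_left _ (abs_nonneg _)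
    rw [abs_le]
    constructor <;> nlinarith
  have h2 : |(c - d) * (((2 - c) ^ 2 + (2 - c) * (2 - d) + (2 - d) ^ 2) / 6)| ≤ |c - d| * 1 := by
    rw [abs_mul]
    apply mul_le_mul_of_nonneg_left _ (abs_nonneg _)
    rw [abs_le]
    constructor <;> nlinarith
  have h3 := clamp_lip 1 0 s t
  have h4 := clamp_lip 2 1 s t
  rw [← ha, ← hb] at h3
  rw [← hc, ← hd] at h4
  have h5 := abs_sub ((a - b) * (1 - (a + b) + (a ^ 2 + a * b + b ^ 2) / 6))
    ((c - d) * (((2 - c) ^ 2 + (2 - c) * (2 - d) + (2 - d) ^ 2) / 6))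
  linarith

lemma kk_ker : Ker kk := by
  refine ⟨⟨2, by norm_num, ?_⟩, ?_, ⟨2, by norm_num, ?_⟩⟩
  · intro s t
    unfold kk
    rw [← Complex.ofReal_sub, Complex.norm_real, Real.norm_eq_abs]
    exact kkr_lip s t
  · intro t ht
    unfold kk
    rw [kkr_neg ht, Complex.ofReal_zero]
  · intro t ht
    unfold kk
    rw [kkr_2 ht, Complex.ofReal_zero]

lemma kk_supp (t : ℝ) (ht : 2 ≤ t) : kk t = 0 := by
  unfold kk
  rw [kkr_2 ht, Complex.ofReal_zero]

lemma kkr_pos {t : ℝ} (h0 : 0 < t) (h1 : t < 2) : 0 < kkr t := by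
  rcases le_total t 1 with h | h
  · rw [kkr_01 h0.le h]
    nlinarith [mul_pos h0 h0, sq_nonneg (t - 1)]
  · rw [kkr_12 h h1.le]
    have : 0 < (2 - t) ^ 3 := pow_pos (by linarith) 3
    linarith

lemma kk_lap {z : ℂ} (hz : z ≠ 0) :
    Lap kk 0 2 z = ((z - 1 + Complex.exp (-z)) / z ^ 2) ^ 2 := by
  have hi : ∀ a b, IntervalIntegrable (fun t : ℝ => kk t * Complex.exp (-(z * t))) volume a b :=
    fun a b => Lap_int (kk_ker.continuous.intervalIntegrable a b) z
  unfold Lap
  rw [← intervalIntegral.integral_add_adjacent_intervals (hi 0 1) (hi 1 2)]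
  have hexp : ∀ t : ℝ, HasDerivAt (fun t : ℝ => Complex.exp (-(z * t)))
      (-z * Complex.exp (-(z * t))) t := by
    intro t
    have h1 : HasDerivAt (fun w : ℂ => Complex.exp (-(z * w))) (Complex.exp (-(z * t)) * (-(z * 1)))
        (t : ℂ) := ((((hasDerivAt_id (t : ℂ)).const_mul z)).neg).cexp
    have h2 := h1.comp_ofReal
    convert h2 using 1
    ring
  have hid : ∀ t : ℝ, HasDerivAt (fun t : ℝ => (t : ℂ)) 1 t := fun t =>
    (hasDerivAt_id (t : ℂ)).comp_ofReal
  -- antiderivatives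
  have e1 : ∫ t in (0:ℝ)..1, kk t * Complex.exp (-(z * t)) =
      (1 / z ^ 2 - 2 / z ^ 3 + 1 / z ^ 4) -
        Complex.exp (-z) * (1 / (6 * z) - 1 / (2 * z ^ 2) - 1 / z ^ 3 + 1 / z ^ 4) := by
    have hd : ∀ t ∈ uIcc (0:ℝ) 1, HasDerivAt (fun t : ℝ => -(Complex.exp (-(z * t)) *
        (((t:ℂ) - (t:ℂ) ^ 2 + (t:ℂ) ^ 3 / 6) / z + (1 - 2 * (t:ℂ) + (t:ℂ) ^ 2 / 2) / z ^ 2 +
          (-2 + (t:ℂ)) / z ^ 3 + 1 / z ^ 4)))
        (((t:ℂ) - (t:ℂ) ^ 2 + (t:ℂ) ^ 3 / 6) * Complex.exp (-(z * t))) t := by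
      intro t _
      have h2 : HasDerivAt (fun t : ℝ => ((t:ℂ) - (t:ℂ) ^ 2 + (t:ℂ) ^ 3 / 6) / z +
          (1 - 2 * (t:ℂ) + (t:ℂ) ^ 2 / 2) / z ^ 2 + (-2 + (t:ℂ)) / z ^ 3 + 1 / z ^ 4)
          ((1 - 2 * (t:ℂ) + (t:ℂ) ^ 2 / 2) / z + (-2 + (t:ℂ)) / z ^ 2 + 1 / z ^ 3) t := by
        have a := hid t
        have a2 := a.pow 2
        have a3 := a.pow 3
        have b1 := ((a.sub a2).add (a3.div_const 6)).div_const z
        have b2 := ((((hasDerivAt_const t (1:ℂ)).sub (a.const_mul 2)).add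
          (a2.div_const 2))).div_const (z ^ 2)
        have b3 := ((hasDerivAt_const t (-2:ℂ)).add a).div_const (z ^ 3)
        have b4 := ((b1.add b2).add b3).add (hasDerivAt_const t (1 / z ^ 4))
        refine HasDerivAt.congr_deriv b4 ?_
        push_cast
        ring
      have h3 := ((hexp t).mul h2).neg
      refine HasDerivAt.congr_deriv h3 ?_
      field_simp
      ring
    have hcongr : ∫ t in (0:ℝ)..1, kk t * Complex.exp (-(z * t)) =
        ∫ t in (0:ℝ)..1, ((t:ℂ) - (t:ℂ) ^ 2 + (t:ℂ) ^ 3 / 6) * Complex.exp (-(z * t)) := by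
      apply intervalIntegral.integral_congr
      intro t ht
      rw [uIcc_of_le (by norm_num)] at ht
      simp only [kk]
      rw [kkr_01 ht.1 ht.2]
      push_cast
      ring
    rw [hcongr, intervalIntegral.integral_eq_sub_of_hasDerivAt hd]
    · simp only [Complex.ofReal_one, Complex.ofReal_zero, mul_zero, neg_zero, Complex.exp_zero,
        mul_one]
      field_simp
      ring
    · apply Continuous.intervalIntegrable
      fun_prop
  have e2 : ∫ t in (1:ℝ)..2, kk t * Complex.exp (-(z * t)) =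
      Complex.exp (-z) * (1 / (6 * z) - 1 / (2 * z ^ 2) + 1 / z ^ 3 - 1 / z ^ 4) +
        Complex.exp (-(z * 2)) * (1 / z ^ 4) := by
    have hd : ∀ t ∈ uIcc (1:ℝ) 2, HasDerivAt (fun t : ℝ => -(Complex.exp (-(z * t)) *
        (((2 - (t:ℂ)) ^ 3 / 6) / z + (-(2 - (t:ℂ)) ^ 2 / 2) / z ^ 2 +
          (2 - (t:ℂ)) / z ^ 3 + (-1) / z ^ 4)))
        (((2 - (t:ℂ)) ^ 3 / 6) * Complex.exp (-(z * t))) t := by
      intro t _
      have h2 : HasDerivAt (fun t : ℝ => ((2 - (t:ℂ)) ^ 3 / 6) / z + (-(2 - (t:ℂ)) ^ 2 / 2) / z ^ 2 +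
          (2 - (t:ℂ)) / z ^ 3 + (-1) / z ^ 4)
          ((-(2 - (t:ℂ)) ^ 2 / 2) / z + (2 - (t:ℂ)) / z ^ 2 + (-1) / z ^ 3) t := by
        have a := (hasDerivAt_const t (2:ℂ)).sub (hid t)
        have a2 := a.pow 2
        have a3 := a.pow 3
        have b1 := (a3.div_const 6).div_const z
        have b2 := (a2.neg.div_const 2).div_const (z ^ 2)
        have b3 := a.div_const (z ^ 3)
        have b4 := ((b1.add b2).add b3).add (hasDerivAt_const t ((-1) / z ^ 4))
        refine HasDerivAt.congr_deriv b4 ?_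
        simp only [Pi.sub_apply]
        push_cast
        ring
      have h3 := ((hexp t).mul h2).neg
      refine HasDerivAt.congr_deriv h3 ?_
      field_simp
      ring
    have hcongr : ∫ t in (1:ℝ)..2, kk t * Complex.exp (-(z * t)) =
        ∫ t in (1:ℝ)..2, ((2 - (t:ℂ)) ^ 3 / 6) * Complex.exp (-(z * t)) := by
      apply intervalIntegral.integral_congr
      intro t ht
      rw [uIcc_of_le (by norm_num)] at ht
      simp only [kk]
      rw [kkr_12 ht.1 ht.2]
      push_cast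
      ring
    rw [hcongr, intervalIntegral.integral_eq_sub_of_hasDerivAt hd]
    · simp only [Complex.ofReal_one, Complex.ofReal_ofNat, mul_one]
      field_simp
      ring
    · apply Continuous.intervalIntegrable
      fun_prop
  rw [e1, e2]
  have e3 : Complex.exp (-(z * 2)) = Complex.exp (-z) * Complex.exp (-z) := by
    rw [← Complex.exp_add]; congr 1; ring
  rw [e3]
  field_simp
  ring

lemma exp_ne {z : ℂ} (hz : z ≠ 0) (hre : 0 ≤ z.re) : z - 1 + Complex.exp (-z) ≠ 0 := by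
  intro h
  have h1 : Complex.exp (-z) = 1 - z := by linear_combination h
  have him := congrArg Complex.im h1
  have hrr := congrArg Complex.re h1
  rw [Complex.exp_im] at him
  rw [Complex.exp_re] at hrr
  simp only [Complex.neg_re, Complex.neg_im, Complex.sub_im, Complex.one_im, Complex.sub_re,
    Complex.one_re, Real.sin_neg, Real.cos_neg, zero_sub] at him hrr
  have he : Real.exp (-z.re) ≤ 1 := Real.exp_le_one_iff.2 (by linarith)
  have he0 : 0 < Real.exp (-z.re) := Real.exp_pos _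
  have hy : z.im = 0 := by
    by_contra hne
    have h2 : |z.im| ≤ |Real.sin z.im| := by
      have h3 : Real.exp (-z.re) * Real.sin z.im = z.im := by linarith
      calc |z.im| = |Real.exp (-z.re) * Real.sin z.im| := by rw [h3]
        _ = Real.exp (-z.re) * |Real.sin z.im| := by rw [abs_mul, abs_of_pos he0]
        _ ≤ 1 * |Real.sin z.im| := by gcongr
        _ = _ := one_mul _
    have h4 : |Real.sin z.im| < |z.im| := Real.abs_sin_lt_abs hne
    linarith
  rw [hy, Real.cos_zero, mul_one] at hrr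
  have h5 : z.re ≠ 0 := by
    intro h6
    exact hz (Complex.ext h6 hy)
  have h7 := Real.add_one_lt_exp (x := -z.re) (by simpa using h5)
  linarith

lemma kk_lap_ne {z : ℂ} (hre : 0 ≤ z.re) : Lap kk 0 2 z ≠ 0 := by
  by_cases hz : z = 0
  · subst hz
    have h1 : Lap kk 0 2 0 = ((∫ t in (0:ℝ)..2, kkr t : ℝ) : ℂ) := by
      unfold Lap kk
      rw [← intervalIntegral.integral_ofReal]
      apply intervalIntegral.integral_congr
      intro t _
      simp
    rw [h1]
    have h2 : 0 < ∫ t in (0:ℝ)..2, kkr t := by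
      apply intervalIntegral.intervalIntegral_pos_of_pos_on
      · apply Continuous.intervalIntegrable
        have := kk_ker.continuous
        unfold kkr
        fun_prop
      · intro t ht
        exact kkr_pos ht.1 ht.2
      · norm_num
    exact_mod_cast h2.ne'
  · rw [kk_lap hz]
    apply pow_ne_zero
    exact div_ne_zero (exp_ne hz hre) (pow_ne_zero _ hz)

/-- The function `f = kk * μ`. -/
noncomputable def ff : ℝ → ℂ := kmu kk

lemma ff_mem : ff ∈ II := kmu_mem kk_ker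

lemma ff_laplace_ne {z : ℂ} (hz : 0 ≤ z.re) :
    ∫ t in Ioi (0:ℝ), ff t * Complex.exp (-(z * (t : ℂ))) ≠ 0 :=
  kmu_laplace_ne kk_ker (A := 2) (by norm_num) (fun t ht => kk_supp t ht) hz (kk_lap_ne hz)

lemma ff_alpha (ε : ℝ) (hε : 0 < ε) : ¬ (ff =ᵐ[volume.restrict (Ioo (0:ℝ) ε)] 0) := by
  intro h
  set δ : ℝ := min ε 1 / 2 with hδ
  have hm : 0 < min ε 1 := lt_min hε one_pos
  have hδ0 : 0 < δ := by positivity
  have h1 := Measure.eqOn_open_of_ae_eq h isOpen_Ioo (kmu_continuous kk_ker).continuousOn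
    continuousOn_const
  have hm1 : min ε 1 ≤ 1 := min_le_right _ _
  have h2 : δ ∈ Ioo (0:ℝ) ε := ⟨hδ0, by
    have : min ε 1 ≤ ε := min_le_left _ _
    linarith⟩
  have h3 := h1 h2
  have hT0 := T_ge_two 0
  unfold ff at h3
  rw [kmu_eq kk_ker (n := 0) (by linarith)] at h3
  simp only [Finset.range_zero, Finset.sum_empty, add_zero, kk, Pi.zero_apply,
    Complex.ofReal_eq_zero] at h3
  have := kkr_pos hδ0 (by linarith)
  linarith

end Pool.Agent.Nyman
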