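import Pool.Agent.Lib_helper93.Ins.NymA

set_option autoImplicit false
open Set Filter Topology MeasureTheory
open scoped Interval ENNReal

namespace Pool.Agent.Nyman

/-- The measure `ω(t) dt` on `[0, ∞)`. -/
noncomputable abbrev muW : Measure ℝ :=
  (volume.restrict (Ici (0:ℝ))).withDensity fun t => ENNReal.ofReal (om t)

lemma muW_meas : AEMeasurable (fun t => ENNReal.ofReal (om t)) (volume.restrict (Ici (0:ℝ))) := by
  apply AEMeasurable.ennreal_ofReal
  have := om_aesm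
  rw [restrict_Ioi_eq_restrict_Ici] at this
  exact this.aemeasurable

lemma muW_ae {p : ℝ → Prop} : (∀ᵐ t ∂muW, p t) ↔ ∀ᵐ t ∂(volume.restrict (Ioi (0:ℝ))), p t := by
  rw [restrict_Ioi_eq_restrict_Ici]
  constructor
  · intro h
    exact (withDensity_absolutelyContinuous' muW_meas (Filter.Eventually.of_forall fun t => by
      simpa using om_pos t)).ae_le h
  · intro h
    exact (withDensity_absolutelyContinuous _ _).ae_le h

lemma muW_integrable {f : ℝ → ℂ} : Integrable f muW ↔ IntW f := by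
  unfold IntW
  rw [restrict_Ioi_eq_restrict_Ici, integrable_withDensity_iff_integrable_smul₀' muW_meas
    (Filter.Eventually.of_forall fun t => ENNReal.ofReal_lt_top)]
  apply integrable_congr
  refine Filter.Eventually.of_forall fun t => ?_
  simp only [ENNReal.toReal_ofReal (om_pos t).le, Complex.real_smul]

lemma muW_integral (g : ℝ → ℝ) : ∫ t, g t ∂muW = ∫ t in Ioi (0:ℝ), g t * om t := by
  rw [integral_withDensity_eq_integral_toReal_smul₀ muW_meas
    (Filter.Eventually.of_forall fun t => ENNReal.ofReal_lt_top), restrict_Ioi_eq_restrict_Ici]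
  apply integral_congr_ae
  refine Filter.Eventually.of_forall fun t => ?_
  simp only [ENNReal.toReal_ofReal (om_pos t).le, smul_eq_mul, mul_comm]

lemma Lp_intW (F : Lp ℂ 1 muW) : IntW F := muW_integrable.1 (L1.integrable_coeFn F)

lemma Lp_dist (F G : Lp ℂ 1 muW) : dist F G = nrm ((F : ℝ → ℂ) - G) := by
  rw [dist_eq_norm, L1.norm_eq_integral_norm, muW_integral]
  unfold nrm
  apply integral_congr_ae
  filter_upwards [muW_ae.1 (Lp.coeFn_sub F G)] with t ht
  simp only [ht]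

/-- The class of a function in `L¹(ω)`. -/
noncomputable def cls (f : ℝ → ℂ) (hf : IntW f) : Lp ℂ 1 muW := (muW_integrable.2 hf).toL1 f

lemma cls_ae (f : ℝ → ℂ) (hf : IntW f) : cls f hf =ᵐ[volume.restrict (Ioi (0:ℝ))] f :=
  muW_ae.1 (Integrable.coeFn_toL1 (muW_integrable.2 hf))

/-- The ideal as a subspace of `L¹(ω)`. -/
noncomputable def III : Submodule ℂ (Lp ℂ 1 muW) where
  carrier := {F | (F : ℝ → ℂ) ∈ II}
  add_mem' := by
    intro F G hF hG
    exact II_congr (II_add hF hG) (muW_ae.1 (Lp.coeFn_add F G))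
  zero_mem' := II_congr II_zero (muW_ae.1 (Lp.coeFn_zero ℂ 1 muW))
  smul_mem' := by
    intro c F hF
    exact II_congr (II_smul c hF) (muW_ae.1 (Lp.coeFn_smul c F))

lemma mem_III {F : Lp ℂ 1 muW} : F ∈ III ↔ (F : ℝ → ℂ) ∈ II := Iff.rfl

lemma III_closed : IsClosed (III : Set (Lp ℂ 1 muW)) := by
  rw [← closure_subset_iff_isClosed]
  intro F hF
  rw [Metric.mem_closure_iff] at hF
  refine II_closed (Lp_intW F) fun ε hε => ?_
  obtain ⟨G, hG, hd⟩ := hF ε hε
  exact ⟨G, hG, by rw [← Lp_dist]; exact hd⟩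

lemma III_conv {F : Lp ℂ 1 muW} (hF : F ∈ III) (G : Lp ℂ 1 muW) :
    ∃ H ∈ III, (H : ℝ → ℂ) =ᵐ[volume.restrict (Ici (0:ℝ))]
      fun t => ∫ s in (0:ℝ)..t, (F : ℝ → ℂ) (t - s) * (G : ℝ → ℂ) s := by
  have hW := tconv_intW (mem_III.1 hF).1 (Lp_intW G)
  refine ⟨cls _ hW, ?_, ?_⟩
  · exact II_congr (II_conv hF (Lp_intW G)) (cls_ae _ hW)
  · rw [← restrict_Ioi_eq_restrict_Ici]
    filter_upwards [cls_ae _ hW, ae_restrict_mem measurableSet_Ioi] with t ht ht0
    have ht0' : (0:ℝ) < t := ht0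
    rw [ht, tconv, intervalIntegral.integral_of_le ht0'.le, integral_Ioc_eq_integral_Ioo]
    apply integral_congr_ae
    exact Filter.Eventually.of_forall fun s => mul_comm _ _

/-- the truncated convolution of two elements of `L¹(ω)` is in `L¹(ω)`, and the norm is
submultiplicative -/
lemma Lp_conv (F G : Lp ℂ 1 muW) :
    ∃ H : Lp ℂ 1 muW, ((H : ℝ → ℂ) =ᵐ[volume.restrict (Ici (0:ℝ))]
      fun t => ∫ s in (0:ℝ)..t, (F : ℝ → ℂ) (t - s) * (G : ℝ → ℂ) s) := by
  have hW := tconv_intW (Lp_intW F) (Lp_intW G)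
  refine ⟨cls _ hW, ?_⟩
  rw [← restrict_Ioi_eq_restrict_Ici]
  filter_upwards [cls_ae _ hW, ae_restrict_mem measurableSet_Ioi] with t ht ht0
  have ht0' : (0:ℝ) < t := ht0
  rw [ht, tconv, intervalIntegral.integral_of_le ht0'.le, integral_Ioc_eq_integral_Ioo]
  apply integral_congr_ae
  exact Filter.Eventually.of_forall fun s => mul_comm _ _

lemma III_ne_top : III ≠ ⊤ := by
  intro h
  have h1 : cls uu uu_intW ∈ III := by rw [h]; trivial
  exact uu_not_mem (II_congr (mem_III.1 h1) (cls_ae uu uu_intW).symm)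

lemma ff_intW : IntW ff := ff_mem.1

lemma cls_ff_mem : cls ff ff_intW ∈ III := II_congr ff_mem (cls_ae ff ff_intW)

lemma cls_ff_laplace {z : ℂ} (hz : 0 ≤ z.re) :
    ∫ t in Ici (0:ℝ), (cls ff ff_intW : ℝ → ℂ) t * Complex.exp (-z * (t : ℂ)) ≠ 0 := by
  have h := ff_laplace_ne hz
  rw [← restrict_Ioi_eq_restrict_Ici]
  convert h using 1
  apply integral_congr_ae
  filter_upwards [cls_ae ff ff_intW] with t ht
  rw [ht, neg_mul]

lemma cls_ff_alpha (ε : ℝ) (hε : 0 < ε) :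
    ¬ ((cls ff ff_intW : ℝ → ℂ) =ᵐ[volume.restrict (Icc (0:ℝ) ε)] 0) := by
  intro h
  apply ff_alpha ε hε
  have h1 : (cls ff ff_intW : ℝ → ℂ) =ᵐ[volume.restrict (Ioo (0:ℝ) ε)] ff :=
    ae_mono (Measure.restrict_mono (fun x hx => hx.1) le_rfl) (cls_ae ff ff_intW)
  have h2 : (cls ff ff_intW : ℝ → ℂ) =ᵐ[volume.restrict (Ioo (0:ℝ) ε)] 0 :=
    ae_mono (Measure.restrict_mono Ioo_subset_Icc_self le_rfl) h
  exact h1.symm.trans h2

lemma semisimple (F : Lp ℂ 1 muW)
    (hF : ∀ z : ℂ, 0 ≤ z.re →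
      ∫ t in Ici (0:ℝ), (F : ℝ → ℂ) t * Complex.exp (-z * (t : ℂ)) = 0) : F = 0 := by
  have h1 : (F : ℝ → ℂ) =ᵐ[volume.restrict (Ioi (0:ℝ))] 0 := by
    apply H53.ae_zero_of_laplace _ (Lp_intW F).integrableOn
    intro y
    have h2 := hF ((y : ℂ) * Complex.I) (by simp)
    rw [← restrict_Ioi_eq_restrict_Ici] at h2
    rw [← h2]
    apply integral_congr_ae
    refine Filter.Eventually.of_forall fun t => ?_
    simp only [neg_mul]
  rw [Lp.eq_zero_iff_ae_eq_zero]
  exact muW_ae.2 h1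

end Pool.Agent.Nyman
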