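import Pool.Agent.Lib_helper93.Omega

open Complex Set Filter
open scoped Topology ContDiff

namespace Pool.Agent.Lib_helper93

/-- The transition maps of the direct limit are complex differentiable. -/
theorem Sys.trans_contDiffAt {W : Type} [LinearOrder W] (S : Sys W) (α β : W) {x : E2}
    (hx : S.ι α x ∈ range (S.ι β)) :
    ContDiffAt ℂ ω (fun z : E2 => S.chartOf β (S.ι α z)) x := by
  have hα := le_max_left α β
  have hβ := le_max_right α β
  set γ := max α β
  have key : ∀ z : E2, S.ι α z ∈ range (S.ι β) →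
      S.φ β γ (S.chartOf β (S.ι α z)) = S.φ α γ z := by
    intro z hz
    rw [← S.ι_eq_iff' hβ hα]
    exact S.ι_chartOf hz
  set e := (S.nice β γ hβ).isOpenEmbedding.toOpenPartialHomeomorph (S.φ β γ) with he
  have key2 : ∀ z : E2, S.ι α z ∈ range (S.ι β) →
      S.chartOf β (S.ι α z) = e.symm (S.φ α γ z) := by
    intro z hz
    rw [← key z hz]
    exact (e.left_inv (by simp [he])).symm
  have hcd : ContDiffAt ℂ ω (fun z => e.symm (S.φ α γ z)) x := by
    have h1 : ContDiffAt ℂ ω e.symm (S.φ α γ x) := by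
      rw [← key x hx]
      exact (S.nice β γ hβ).symm_contDiffAt _
    exact h1.comp x (S.nice α γ hα).smooth.contDiffAt
  refine hcd.congr_of_eventuallyEq ?_
  have hopen : IsOpen (S.ι α ⁻¹' range (S.ι β)) :=
    (S.ι_isOpenEmbedding β).isOpen_range.preimage (S.ι_continuous α)
  filter_upwards [hopen.mem_nhds hx] with z hz
  exact key2 z hz

/-- A nonseparable complex manifold of dimension `n ≥ 2` with charts onto `ℂⁿ`. -/
theorem stoll (n : ℕ) (hn : 2 ≤ n) :
    ∃ (M : Type) (_ : TopologicalSpace M) (J : Type) (U : J → Set M)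
      (φ : (i : J) → U i → (Fin n → ℂ)),
      T2Space M ∧ ConnectedSpace M ∧ (∀ i, IsOpen (U i)) ∧ (⋃ i, U i = univ) ∧
      (∀ i, IsHomeomorph (φ i)) ∧
      (∀ i j, ∃ g : (Fin n → ℂ) → (Fin n → ℂ),
        DifferentiableOn ℂ g (φ i '' {m | (m : M) ∈ U j}) ∧
        ∀ (m : M) (hi : m ∈ U i) (hj : m ∈ U j), g (φ i ⟨m, hi⟩) = φ j ⟨m, hj⟩) ∧
      (∀ i j, U i ⊆ U j ∨ U j ⊆ U i) ∧
      (∀ A : Set M, A.Countable → ∃ i, A ⊆ U i ∧ ¬ Dense (U i)) := by
  classical
  obtain ⟨φ, h1, h2, h3, h4⟩ := exists_system (W := W1) W1_Iio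
  let S : Sys W1 := ⟨φ, h1, h2, h3⟩
  obtain ⟨k, rfl⟩ : ∃ k, n = 2 + k := ⟨n - 2, by omega⟩
  have hfr : Module.finrank ℂ (Fin (2 + k) → ℂ) = Module.finrank ℂ (E2 × (Fin k → ℂ)) := by
    rw [Module.finrank_prod, Module.finrank_fin_fun, Module.finrank_fin_fun]
    simp [E2]
  let L : (Fin (2 + k) → ℂ) ≃L[ℂ] E2 × (Fin k → ℂ) := ContinuousLinearEquiv.ofFinrankEq hfr
  let U : W1 → Set (S.M × (Fin k → ℂ)) := fun α => range (S.ι α) ×ˢ univ
  let c : (i : W1) → U i → (Fin (2 + k) → ℂ) := fun i m => L.symm (S.chartOf i m.1.1, m.1.2)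
  have hUopen : ∀ i, IsOpen (U i) := fun i =>
    (S.ι_isOpenEmbedding i).isOpen_range.prod isOpen_univ
  have hmono : ∀ i j, i ≤ j → range (S.ι i) ⊆ range (S.ι j) := by
    rintro i j hij _ ⟨x, rfl⟩
    exact ⟨S.φ i j x, S.ι_map hij x⟩
  have hconn : ConnectedSpace S.M := S.connected
  have ht2 : T2Space S.M := S.t2
  refine ⟨S.M × (Fin k → ℂ), inferInstance, W1, U, c, inferInstance, inferInstance, hUopen, ?_, ?_,
    ?_, ?_, ?_⟩
  · rw [eq_univ_iff_forall]
    intro m
    exact mem_iUnion.2 ⟨S.stage m.1, S.mem_stage m.1, mem_univ _⟩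
  · intro i
    have hcont : Continuous (c i) := by
      apply L.symm.continuous.comp
      apply Continuous.prodMk
      · have h5 : ContinuousOn (S.chartOf i) (range (S.ι i)) := by
          rw [← S.chartOf_source i]
          exact (S.chartOf i).continuousOn
        exact h5.comp_continuous (continuous_fst.comp continuous_subtype_val) fun m => m.2.1
      · exact continuous_snd.comp continuous_subtype_val
    let d : (Fin (2 + k) → ℂ) → U i := fun z =>
      ⟨(S.ι i (L z).1, (L z).2), mem_range_self _, mem_univ _⟩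
    have hd : Continuous d := by
      apply Continuous.subtype_mk
      exact ((S.ι_continuous i).comp (continuous_fst.comp L.continuous)).prodMk
        (continuous_snd.comp L.continuous)
    have hl : Function.LeftInverse d (c i) := by
      rintro ⟨⟨m, w⟩, hm⟩
      simp only [d, c, ContinuousLinearEquiv.apply_symm_apply]
      congr 2
      exact S.ι_chartOf hm.1
    have hr : Function.RightInverse d (c i) := by
      intro z
      have h6 : S.chartOf i (S.ι i (L z).1) = (L z).1 :=
        S.ι_inj i (S.ι_chartOf (mem_range_self _))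
      simp only [d, c, h6]
      exact L.symm_apply_apply z
    exact (Homeomorph.mk ⟨c i, d, hl, hr⟩ hcont hd).isHomeomorph
  · intro i j
    refine ⟨fun z => L.symm (S.chartOf j (S.ι i (L z).1), (L z).2), ?_, ?_⟩
    · rintro _ ⟨⟨⟨m, w⟩, hm⟩, hmj, rfl⟩
      have hmj' : m ∈ range (S.ι j) := hmj.1
      apply DifferentiableAt.differentiableWithinAt
      apply L.symm.differentiableAt.comp
      apply DifferentiableAt.prodMk
      · have h7 : (L (c i ⟨(m, w), hm⟩)).1 = S.chartOf i m := by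
          simp only [c, ContinuousLinearEquiv.apply_symm_apply]
        have h8 : S.ι i (L (c i ⟨(m, w), hm⟩)).1 ∈ range (S.ι j) := by
          rw [h7, S.ι_chartOf hm.1]
          exact hmj'
        have h9 := (S.trans_contDiffAt i j h8).differentiableAt (by simp)
        have h10 : DifferentiableAt ℂ (fun z => (L z).1) (c i ⟨(m, w), hm⟩) :=
          L.differentiableAt.fst
        exact DifferentiableAt.comp (g := fun z : E2 => S.chartOf j (S.ι i z))
          (c i ⟨(m, w), hm⟩) h9 h10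
      · exact L.differentiableAt.snd
    · rintro ⟨m, w⟩ hi hj
      simp only [c, ContinuousLinearEquiv.apply_symm_apply]
      rw [S.ι_chartOf hi.1]
  · intro i j
    rcases le_total i j with h | h
    · exact Or.inl (prod_mono (hmono i j h) le_rfl)
    · exact Or.inr (prod_mono (hmono j i h) le_rfl)
  · intro A hA
    obtain ⟨β, hβ⟩ := W1_bdd ((fun m : S.M × (Fin k → ℂ) => S.stage m.1) '' A) (hA.image _)
    refine ⟨β, ?_, ?_⟩
    · intro m hm
      exact ⟨hmono _ _ (hβ _ (mem_image_of_mem _ hm)).le (S.mem_stage m.1), mem_univ _⟩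
    · intro hdense
      obtain ⟨γ, hγ⟩ := W1_bdd {β} (countable_singleton β)
      have hγ' : β < γ := hγ β rfl
      obtain ⟨V, hV, ⟨v, hv⟩, hd⟩ := h4 γ
      obtain ⟨m, hm1, hm2⟩ := hdense.inter_open_nonempty ((S.ι γ '' V) ×ˢ univ)
        ((S.ι_isOpenMap γ V hV).prod isOpen_univ) ⟨(S.ι γ v, 0), mem_image_of_mem _ hv, mem_univ _⟩
      obtain ⟨v', hv', hm3⟩ := hm1.1
      obtain ⟨x, hx⟩ := hm2.1
      rw [← S.ι_map hγ'.le, ← hm3] at hx
      exact (Set.disjoint_left.1 (hd β hγ')) hv' ⟨x, S.ι_inj γ hx⟩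

end Pool.Agent.Lib_helper93
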